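import Mathlib

set_option autoImplicit false

namespace Pool.Agent.H.MP_58d537_lc.R67

open Finset

/-- `√(ab) ≤ R min(a,b) + (a+b)/R` (if `min ≥ max/R²` the first term, otherwise the second). -/
theorem sqrt_mul_le (a b R : ℝ) (ha : 0 ≤ a) (hb : 0 ≤ b) (hR : 0 < R) :
    Real.sqrt (a * b) ≤ R * min a b + (a + b) / R := by
  have key : ∀ a b : ℝ, 0 ≤ a → 0 ≤ b → Real.sqrt (a * b) ≤ R * a + b / R := by
    intro a b ha hb
    obtain ⟨c, rfl⟩ : ∃ c, b = c * R := ⟨b / R, (div_mul_cancel₀ b hR.ne').symm⟩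
    have hc : 0 ≤ c := by
      by_contra h
      have := mul_neg_of_neg_of_pos (not_le.1 h) hR
      linarith
    rw [mul_div_assoc, div_self hR.ne', mul_one]
    refine Real.sqrt_le_iff.2 ⟨by positivity, ?_⟩
    nlinarith [sq_nonneg (R * a), sq_nonneg c, mul_nonneg (mul_nonneg hR.le ha) hc]
  have h1 : (a + b) / R = a / R + b / R := add_div a b R
  have h2 : 0 ≤ a / R := div_nonneg ha hR.le
  have h3 : 0 ≤ b / R := div_nonneg hb hR.le
  rcases le_total a b with h | h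
  · rw [min_eq_left h, h1]
    have := key a b ha hb
    linarith
  · rw [min_eq_right h, h1, mul_comm a b]
    have := key b a hb ha
    linarith

/-- Conversion to the min form: if `p x - p y ≥ v/2` then
`∑_{x_i ≠ y_i} min (q x i) (q y i) ≥ v^4/(32768 T)`: `η = v/2`, `R = 64 T/η²`,
`η²/16 ≤ ∑ √(q q) ≤ R ∑ min + 2T/R = R ∑ min + η²/32`. -/
theorem min_conflict (N : ℕ) (p : (Fin N → Bool) → ℝ) (q : (Fin N → Bool) → Fin N → ℝ)
    (T : ℝ) (hT : 1 ≤ T) (hq : ∀ x i, 0 ≤ q x i) (hqT : ∀ x, ∑ i, q x i ≤ T)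
    (hadv : ∀ x y, (p x - p y) ^ 2 / 16 ≤
      ∑ i ∈ univ.filter (fun i => x i ≠ y i), Real.sqrt (q x i * q y i))
    (v : ℝ) (hv : 0 < v) (x y : Fin N → Bool) (hxy : v / 2 ≤ p x - p y) :
    v ^ 4 / (32768 * T) ≤ ∑ i ∈ univ.filter (fun i => x i ≠ y i), min (q x i) (q y i) := by
  have hT0 : 0 < T := by linarith
  have hR : 0 < 256 * T / v ^ 2 := by positivity
  have h1 := hadv x y
  have h2 : ∑ i ∈ univ.filter (fun i => x i ≠ y i), Real.sqrt (q x i * q y i) ≤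
      256 * T / v ^ 2 * ∑ i ∈ univ.filter (fun i => x i ≠ y i), min (q x i) (q y i) +
        (∑ i ∈ univ.filter (fun i => x i ≠ y i), q x i +
          ∑ i ∈ univ.filter (fun i => x i ≠ y i), q y i) / (256 * T / v ^ 2) := by
    rw [mul_sum, ← sum_add_distrib, sum_div, ← sum_add_distrib]
    exact sum_le_sum fun i _ => sqrt_mul_le _ _ _ (hq x i) (hq y i) hR
  have h3 : ∀ z : Fin N → Bool, ∑ i ∈ univ.filter (fun i => x i ≠ y i), q z i ≤ T := by
    intro z
    refine le_trans ?_ (hqT z)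
    exact sum_le_sum_of_subset_of_nonneg (filter_subset _ _) fun i _ _ => hq z i
  obtain ⟨S, hS⟩ : ∃ S, S = ∑ i ∈ univ.filter (fun i => x i ≠ y i), min (q x i) (q y i) :=
    ⟨_, rfl⟩
  rw [← hS] at h2 ⊢
  have h4 : (∑ i ∈ univ.filter (fun i => x i ≠ y i), q x i +
      ∑ i ∈ univ.filter (fun i => x i ≠ y i), q y i) / (256 * T / v ^ 2) ≤ v ^ 2 / 128 := by
    rw [div_le_iff₀ hR]
    have e : v ^ 2 / 128 * (256 * T / v ^ 2) = 2 * T := by
      field_simp
      ring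
    rw [e]
    have := h3 x
    have := h3 y
    linarith
  have h5 : v ^ 2 / 64 ≤ (p x - p y) ^ 2 / 16 := by
    have : (v / 2) ^ 2 ≤ (p x - p y) ^ 2 := pow_le_pow_left₀ (by positivity) hxy 2
    nlinarith
  have h6 : v ^ 2 / 128 ≤ 256 * T / v ^ 2 * S := by linarith
  have h7 : 256 * T / v ^ 2 * (v ^ 4 / (32768 * T)) = v ^ 2 / 128 := by
    field_simp
    ring
  rw [← h7] at h6
  exact le_of_mul_le_mul_left h6 hR

end Pool.Agent.H.MP_58d537_lc.R67
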