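import Pool.Agent.H.MP_58d537_lc.A20.Cube

set_option autoImplicit false

namespace Pool.Agent.H.MP_58d537_lc.R67

open Finset A20

theorem LitB_half (N : ℕ) (g : (Fin N → Bool) → ℝ) (hg : ∀ x, g x ≤ 1) (h0 : avg g = 0)
    (v : ℝ) (hv : 0 < v) (hvar : v < avg (fun x => |g x|)) :
    v / 4 ≤ ((univ.filter (fun x => v / 4 ≤ g x)).card : ℝ) / 2 ^ N := by
  have h1 : avg (fun x => |g x| + g x) ≤
      avg (fun x => v / 2 + 2 * (if v / 4 ≤ g x then (1 : ℝ) else 0)) := by
    refine avg_mono fun x => ?_
    by_cases h : v / 4 ≤ g x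
    · rw [if_pos h, abs_of_nonneg (by linarith)]
      have := hg x
      linarith
    · rw [if_neg h]
      rcases abs_cases (g x) with ⟨h2, _⟩ | ⟨h2, _⟩ <;> rw [h2] <;> linarith
  rw [avg_add, avg_add, avg_const_mul, h0, avg_const] at h1
  have h2 : avg (fun x => if v / 4 ≤ g x then (1 : ℝ) else 0) =
      ((univ.filter (fun x => v / 4 ≤ g x)).card : ℝ) / 2 ^ N := by
    unfold avg
    rw [sum_boole]
  rw [h2] at h1
  linarith

/-- If the variance is `> v` then both tail sets have measure at least `v/4`:
`e = avg p`, `avg |p - e| ≥ avg (p-e)² > v`, so `avg (p-e)⁺ = avg (p-e)⁻ ≥ v/2`, and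
`(p-e)⁺ ≤ v/4 + 1[p ≥ e + v/4]`. -/
theorem tails (N : ℕ) (p : (Fin N → Bool) → ℝ) (hp0 : ∀ x, 0 ≤ p x) (hp1 : ∀ x, p x ≤ 1)
    (v : ℝ) (hv : 0 < v) (hvar : v < avg (fun x => p x ^ 2) - avg p ^ 2) :
    v / 4 ≤ ((univ.filter (fun x => avg p + v / 4 ≤ p x)).card : ℝ) / 2 ^ N ∧
    v / 4 ≤ ((univ.filter (fun x => p x ≤ avg p - v / 4)).card : ℝ) / 2 ^ N := by
  have he0 : 0 ≤ avg p := avg_nonneg hp0
  have he1 : avg p ≤ 1 := by
    have := avg_mono hp1
    rwa [avg_const] at this
  have h1 : avg (fun x => (p x - avg p) ^ 2) = avg (fun x => p x ^ 2) - avg p ^ 2 := by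
    have e : (fun x => (p x - avg p) ^ 2) =
        fun x => p x ^ 2 - 2 * avg p * p x + avg p ^ 2 := by
      funext x; ring
    rw [e, avg_add, avg_sub, avg_const_mul, avg_const]
    have : avg (fun x => p x) = avg p := rfl
    rw [this]
    ring
  have h2 : v < avg (fun x => |p x - avg p|) := by
    refine lt_of_lt_of_le (h1 ▸ hvar) (avg_mono fun x => ?_)
    have h3 : |p x - avg p| ≤ 1 := by
      rw [abs_le]
      have := hp0 x
      have := hp1 x
      constructor <;> linarith
    rw [← sq_abs]
    nlinarith [abs_nonneg (p x - avg p)]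
  have h3 : avg (fun x => p x - avg p) = 0 := by
    rw [avg_sub, avg_const]
    exact sub_self _
  constructor
  · have h4 := LitB_half N (fun x => p x - avg p) (fun x => by
      have := hp1 x
      linarith) h3 v hv h2
    have e : (univ.filter fun x => avg p + v / 4 ≤ p x) =
        univ.filter fun x => v / 4 ≤ p x - avg p := by
      ext x
      simp only [mem_filter, mem_univ, true_and]
      constructor <;> intro h <;> linarith
    rw [e]
    exact h4
  · have h5 : avg (fun x => avg p - p x) = 0 := by
      rw [avg_sub, avg_const]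
      exact sub_self _
    have h6 : v < avg (fun x => |avg p - p x|) := by
      have e : (fun x => |avg p - p x|) = fun x => |p x - avg p| := by
        funext x
        exact abs_sub_comm _ _
      rw [e]
      exact h2
    have h4 := LitB_half N (fun x => avg p - p x) (fun x => by
      have := hp0 x
      linarith) h5 v hv h6
    have e : (univ.filter fun x => p x ≤ avg p - v / 4) =
        univ.filter fun x => v / 4 ≤ avg p - p x := by
      ext x
      simp only [mem_filter, mem_univ, true_and]
      constructor <;> intro h <;> linarith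
    rw [e]
    exact h4

end Pool.Agent.H.MP_58d537_lc.R67
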