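import Mathlib

set_option autoImplicit false

namespace Pool.Agent.H.MP_58d537_lc.R67

/-- The numerical choice of `n` and `m` in Theorem 3: with `s = 32768 T²/v⁴` and
`δ = v^20/(2^78 T^6)` some `n, m ≥ 1` have `√n/(2m) + 16 m (δ s + s²/n) < v²/16`.
Proof: `A = 65536 s²/v⁴`, `n = ⌈A²⌉₊`, so `A ≤ √n ≤ 2A`; `m = ⌈32 √n/v²⌉₊`, so
`32 √n/v² ≤ m ≤ 33 √n/v²`. `√n/(2m) ≤ v²/64`; `16 m s²/n ≤ 528 s²/(v² √n) ≤ 528 v²/65536 < v²/64`;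
`16 m δ s ≤ 528 √n δ s/v² ≤ 1056·65536 s³ δ/v⁶ = 69206016·2^45·v²/2^78 < v²/64`. -/
theorem numerics (T v : ℝ) (hT : 1 ≤ T) (hv : 0 < v) (hv1 : v ≤ 1) :
    ∃ n m : ℕ, 1 ≤ n ∧ 1 ≤ m ∧
      Real.sqrt n / (2 * m) + 16 * m * ((v ^ 20 / (2 ^ 78 * T ^ 6)) * (32768 * T ^ 2 / v ^ 4)
        + (32768 * T ^ 2 / v ^ 4) ^ 2 / n) < v ^ 2 / 16 := by
  have hT0 : 0 < T := lt_of_lt_of_le one_pos hT
  have hv2 : 0 < v ^ 2 := by positivity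
  have hv2' : v ^ 2 ≤ 1 := pow_le_one₀ hv.le hv1
  have hv4 : 0 < v ^ 4 := by positivity
  have hv4' : v ^ 4 ≤ 1 := pow_le_one₀ hv.le hv1
  have hT2 : 1 ≤ T ^ 2 := one_le_pow₀ hT
  obtain ⟨s, hs⟩ : ∃ s, s = 32768 * T ^ 2 / v ^ 4 := ⟨_, rfl⟩
  obtain ⟨δ, hδ⟩ : ∃ δ, δ = v ^ 20 / (2 ^ 78 * T ^ 6) := ⟨_, rfl⟩
  obtain ⟨A, hA⟩ : ∃ A, A = 65536 * s ^ 2 / v ^ 4 := ⟨_, rfl⟩
  rw [← hs, ← hδ]
  have hs1 : 1 ≤ s := by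
    rw [hs, le_div_iff₀ hv4]
    linarith
  have hδ0 : 0 < δ := by
    rw [hδ]
    positivity
  have hs2 : 1 ≤ s ^ 2 := one_le_pow₀ hs1
  have hA1 : 1 ≤ A := by
    rw [hA, le_div_iff₀ hv4]
    linarith
  have hA0 : 0 < A := lt_of_lt_of_le one_pos hA1
  have hk1 : A * (δ * s) = v ^ 4 / 2 ^ 17 := by
    rw [hA, hδ, hs]
    field_simp
    norm_num
  have hk2 : s ^ 2 / A = v ^ 4 / 65536 := by
    have hs0 : s ≠ 0 := (lt_of_lt_of_le one_pos hs1).ne'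
    rw [hA]
    field_simp
  have hn1 : A ^ 2 ≤ (⌈A ^ 2⌉₊ : ℝ) := Nat.le_ceil _
  have hn2 : (⌈A ^ 2⌉₊ : ℝ) < A ^ 2 + 1 := Nat.ceil_lt_add_one (by positivity)
  have hnpos : 0 < ⌈A ^ 2⌉₊ := Nat.ceil_pos.2 (by positivity)
  generalize ⌈A ^ 2⌉₊ = n at hn1 hn2 hnpos
  obtain ⟨w, hw⟩ : ∃ w, w = Real.sqrt n := ⟨_, rfl⟩
  have hAw : A ≤ w := by
    rw [hw]
    exact Real.le_sqrt_of_sq_le hn1
  have hw0 : 0 < w := lt_of_lt_of_le hA0 hAw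
  have hw1 : 1 ≤ w := hA1.trans hAw
  have hwA : w ≤ 2 * A := by
    rw [hw]
    refine Real.sqrt_le_iff.2 ⟨by positivity, ?_⟩
    nlinarith
  have hw2 : w ^ 2 = (n : ℝ) := by
    rw [hw]
    exact Real.sq_sqrt (Nat.cast_nonneg n)
  have hwv : 0 < w / v ^ 2 := by positivity
  have hwv1 : 1 ≤ w / v ^ 2 := by
    rw [le_div_iff₀ hv2]
    linarith
  have hm1 : 32 * (w / v ^ 2) ≤ (⌈32 * (w / v ^ 2)⌉₊ : ℝ) := Nat.le_ceil _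
  have hm2 : (⌈32 * (w / v ^ 2)⌉₊ : ℝ) < 32 * (w / v ^ 2) + 1 :=
    Nat.ceil_lt_add_one (by positivity)
  have hmpos : 0 < ⌈32 * (w / v ^ 2)⌉₊ := Nat.ceil_pos.2 (by positivity)
  generalize ⌈32 * (w / v ^ 2)⌉₊ = m at hm1 hm2 hmpos
  refine ⟨n, m, hnpos, hmpos, ?_⟩
  have hm0 : (0 : ℝ) < m := Nat.cast_pos.2 hmpos
  have hm3 : (m : ℝ) ≤ 33 * (w / v ^ 2) := by linarith
  have t1 : Real.sqrt n / (2 * m) ≤ v ^ 2 / 64 := by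
    rw [← hw, div_le_iff₀ (by positivity)]
    have h1 : 32 * w ≤ m * v ^ 2 := by
      rw [← mul_div_assoc, div_le_iff₀ hv2] at hm1
      exact hm1
    linarith
  have t2 : 16 * m * (δ * s) ≤ 1056 / 2 ^ 17 * v ^ 2 := by
    have hds : 0 ≤ δ * s := mul_nonneg hδ0.le (by linarith)
    calc 16 * m * (δ * s) ≤ 16 * (33 * (w / v ^ 2)) * (δ * s) := by gcongr
      _ ≤ 16 * (33 * (2 * A / v ^ 2)) * (δ * s) := by gcongr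
      _ = 1056 * (A * (δ * s)) / v ^ 2 := by ring
      _ = 1056 / 2 ^ 17 * v ^ 2 := by
        rw [hk1]
        field_simp
  have t3 : 16 * m * (s ^ 2 / n) ≤ 528 / 65536 * v ^ 2 := by
    rw [← hw2]
    calc 16 * m * (s ^ 2 / w ^ 2) ≤ 16 * (33 * (w / v ^ 2)) * (s ^ 2 / w ^ 2) := by gcongr
      _ = 528 * (s ^ 2 / w) / v ^ 2 := by
        field_simp
        ring
      _ ≤ 528 * (s ^ 2 / A) / v ^ 2 := by gcongr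
      _ = 528 / 65536 * v ^ 2 := by
        rw [hk2]
        field_simp
  rw [mul_add]
  have t4 : 0 < v ^ 2 := hv2
  norm_num at t2 t3 ⊢
  linarith

end Pool.Agent.H.MP_58d537_lc.R67
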