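import Pool.Agent.H.MP_58d537_lc.R67.Rnd
import Pool.Agent.H.MP_58d537_lc.R67.LitA
import Pool.Agent.H.MP_58d537_lc.R67.LitB
import Pool.Agent.H.MP_58d537_lc.R67.LitC

set_option autoImplicit false

namespace Pool.Agent.H.MP_58d537_lc.R67

open Finset A20

/-- **Theorem 4, abstract half.** Light query weights force a small variance. Suppose the variance
is `> v`; `X = {avg p + v/4 ≤ p}`, `Y = {p ≤ avg p - v/4}` (`tails`), `κ = v^4/(32768 T)`,
`a = b = q/κ` (`min_conflict`), `s = T/κ = 32768 T²/v⁴`, `δ = τ/κ = v^20/(2^78 T^6)` with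
`τ = v^24/(2^93 T^7)`; `bit_ineq` with `n, m` of `numerics` contradicts `P(X)P(Y) ≥ v²/16`. -/
theorem light_var (N : ℕ) (p : (Fin N → Bool) → ℝ) (q : (Fin N → Bool) → Fin N → ℝ)
    (T : ℝ) (hT : 1 ≤ T) (hp0 : ∀ x, 0 ≤ p x) (hp1 : ∀ x, p x ≤ 1)
    (hq : ∀ x i, 0 ≤ q x i) (hqT : ∀ x, ∑ i, q x i ≤ T)
    (hadv : ∀ x y, (p x - p y) ^ 2 / 16 ≤
      ∑ i ∈ univ.filter (fun i => x i ≠ y i), Real.sqrt (q x i * q y i))
    (v : ℝ) (hv : 0 < v) (hv1 : v ≤ 1)
    (hlight : ∀ i, avg (fun x => q x i) ≤ v ^ 24 / (2 ^ 93 * T ^ 7)) :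
    avg (fun x => p x ^ 2) - avg p ^ 2 ≤ v := by
  classical
  by_contra hcon
  push Not at hcon
  obtain ⟨hX, hY⟩ := tails N p hp0 hp1 v hv hcon
  obtain ⟨n, m, hn, hm, hnum⟩ := numerics T v hT hv hv1
  have hT0 : (0 : ℝ) < T := lt_of_lt_of_le one_pos hT
  set X := univ.filter (fun x => avg p + v / 4 ≤ p x) with hXdef
  set Y := univ.filter (fun x => p x ≤ avg p - v / 4) with hYdef
  set κ : ℝ := v ^ 4 / (32768 * T) with hκ
  have hκ0 : 0 < κ := by positivity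
  have h2N : (0 : ℝ) < 2 ^ N := by positivity
  have hsX : ∀ Z : Finset (Fin N → Bool),
      ∑ i, (∑ x ∈ Z, q x i / κ) / 2 ^ N ≤ 32768 * T ^ 2 / v ^ 4 := by
    intro Z
    rw [← Finset.sum_div, Finset.sum_comm, div_le_iff₀ h2N]
    have h1 : ∀ x ∈ Z, ∑ i, q x i / κ ≤ 32768 * T ^ 2 / v ^ 4 := by
      intro x _
      rw [← Finset.sum_div]
      have h2 : 32768 * T ^ 2 / v ^ 4 = T / κ := by
        rw [hκ]; field_simp
      rw [h2]
      exact div_le_div_of_nonneg_right (hqT x) hκ0.le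
    refine (Finset.sum_le_sum h1).trans ?_
    rw [Finset.sum_const, nsmul_eq_mul, mul_comm]
    refine mul_le_mul_of_nonneg_left ?_ (by positivity)
    have hc : Z.card ≤ 2 ^ N := by
      refine (Finset.card_le_univ Z).trans ?_
      simp
    exact_mod_cast hc
  have hδX : ∀ i, (∑ x ∈ X, q x i / κ) / 2 ^ N ≤ v ^ 20 / (2 ^ 78 * T ^ 6) := by
    intro i
    have h1 : ∑ x ∈ X, q x i / κ ≤ ∑ x, q x i / κ :=
      Finset.sum_le_sum_of_subset_of_nonneg (Finset.subset_univ _)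
        fun x _ _ => div_nonneg (hq x i) hκ0.le
    have h2 : (∑ x, q x i / κ) / 2 ^ N = avg (fun x => q x i) / κ := by
      unfold avg
      rw [← Finset.sum_div]
      ring
    have h3 : v ^ 20 / (2 ^ 78 * T ^ 6) = (v ^ 24 / (2 ^ 93 * T ^ 7)) / κ := by
      rw [hκ]; field_simp; norm_num
    calc (∑ x ∈ X, q x i / κ) / 2 ^ N ≤ (∑ x, q x i / κ) / 2 ^ N :=
          div_le_div_of_nonneg_right h1 h2N.le
      _ = avg (fun x => q x i) / κ := h2
      _ ≤ (v ^ 24 / (2 ^ 93 * T ^ 7)) / κ := div_le_div_of_nonneg_right (hlight i) hκ0.le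
      _ = v ^ 20 / (2 ^ 78 * T ^ 6) := h3.symm
  have hconf : ∀ x ∈ X, ∀ y ∈ Y,
      1 ≤ ∑ i ∈ univ.filter (fun i => x i ≠ y i), min (q x i / κ) (q y i / κ) := by
    intro x hx y hy
    have hx' : avg p + v / 4 ≤ p x := (Finset.mem_filter.mp hx).2
    have hy' : p y ≤ avg p - v / 4 := (Finset.mem_filter.mp hy).2
    have h1 := min_conflict N p q T hT hq hqT hadv v hv x y (by linarith)
    have h2 : ∑ i ∈ univ.filter (fun i => x i ≠ y i), min (q x i / κ) (q y i / κ) =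
        (∑ i ∈ univ.filter (fun i => x i ≠ y i), min (q x i) (q y i)) / κ := by
      rw [Finset.sum_div]
      refine Finset.sum_congr rfl fun i _ => ?_
      exact (min_div_div_right hκ0.le _ _)
    rw [h2, le_div_iff₀ hκ0, one_mul]
    exact h1
  have key := bit_ineq N n m hm hn X Y (fun x i => q x i / κ) (fun x i => q x i / κ)
    (fun x i => div_nonneg (hq x i) hκ0.le) (fun x i => div_nonneg (hq x i) hκ0.le)
    (32768 * T ^ 2 / v ^ 4) (v ^ 20 / (2 ^ 78 * T ^ 6)) (hsX X) (hsX Y) hδX (by positivity) hconf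
  have hprod : v ^ 2 / 16 ≤ ((X.card : ℝ) / 2 ^ N) * ((Y.card : ℝ) / 2 ^ N) := by
    have h := mul_le_mul hX hY (by positivity) (by positivity)
    calc v ^ 2 / 16 = v / 4 * (v / 4) := by ring
      _ ≤ _ := h
  linarith

end Pool.Agent.H.MP_58d537_lc.R67
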