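import Mathlib

set_option autoImplicit false

namespace Pool.Agent.H.MP_58d537_lc.R67

open Finset Matrix

section quh

variable {B : Type*} [Fintype B]

/-- The inner product of two finite complex vectors. -/
private def quIp (u v : B → ℂ) : ℂ := ∑ b, star (u b) * v b

private lemma quIp_unitary [DecidableEq B] (M : Matrix B B ℂ) (hM : star M * M = 1) (u v : B → ℂ) :
    quIp (M *ᵥ u) (M *ᵥ v) = quIp u v := by
  have h : ∀ u v : B → ℂ, quIp u v = star u ⬝ᵥ v := fun u v => rfl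
  rw [h, h, Matrix.star_mulVec, ← Matrix.dotProduct_mulVec, Matrix.mulVec_mulVec,
    ← Matrix.star_eq_conjTranspose, hM, Matrix.one_mulVec]

private lemma quIp_self (u : B → ℂ) : quIp u u = ((∑ b, ‖u b‖ ^ 2 : ℝ) : ℂ) := by
  unfold quIp
  push_cast
  refine Finset.sum_congr rfl (fun b _ => ?_)
  have := Complex.conj_mul' (u b)
  simpa using this

private lemma quIp_sub (u v : B → ℂ) (hu : ∑ b, ‖u b‖ ^ 2 = 1) (hv : ∑ b, ‖v b‖ ^ 2 = 1) :
    ∑ b, ‖u b - v b‖ ^ 2 = 2 * (1 - (quIp u v).re) := by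
  have h1 : ∀ b, ‖u b - v b‖ ^ 2 = ‖u b‖ ^ 2 + ‖v b‖ ^ 2 - 2 * (star (u b) * v b).re := by
    intro b
    rw [← Complex.normSq_eq_norm_sq, ← Complex.normSq_eq_norm_sq, ← Complex.normSq_eq_norm_sq,
      Complex.normSq_apply, Complex.normSq_apply, Complex.normSq_apply]
    simp only [Complex.sub_re, Complex.sub_im, Complex.star_def, Complex.mul_re, Complex.conj_re,
      Complex.conj_im]
    ring
  simp only [h1]
  rw [Finset.sum_sub_distrib, Finset.sum_add_distrib, hu, hv, ← Finset.mul_sum]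
  unfold quIp
  rw [Complex.re_sum]
  ring

/-- Change of acceptance probability against the distance of two unit vectors. -/
private lemma quAcc (Acc : Finset B) (u v : B → ℂ) (hu : ∑ b, ‖u b‖ ^ 2 = 1)
    (hv : ∑ b, ‖v b‖ ^ 2 = 1) :
    (∑ s ∈ Acc, ‖u s‖ ^ 2 - ∑ s ∈ Acc, ‖v s‖ ^ 2) ^ 2 ≤ 8 * (1 - (quIp u v).re) := by
  have h1 : |∑ s ∈ Acc, ‖u s‖ ^ 2 - ∑ s ∈ Acc, ‖v s‖ ^ 2|
      ≤ ∑ s ∈ Acc, ‖u s - v s‖ * (‖u s‖ + ‖v s‖) := by
    rw [← Finset.sum_sub_distrib]
    refine (Finset.abs_sum_le_sum_abs _ _).trans (Finset.sum_le_sum (fun s _ => ?_))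
    have e : ‖u s‖ ^ 2 - ‖v s‖ ^ 2 = (‖u s‖ - ‖v s‖) * (‖u s‖ + ‖v s‖) := by ring
    rw [e, abs_mul, abs_of_nonneg (add_nonneg (norm_nonneg (u s)) (norm_nonneg (v s)))]
    exact mul_le_mul_of_nonneg_right (abs_norm_sub_norm_le _ _) (by positivity)
  have h2 : (∑ s ∈ Acc, ‖u s - v s‖ * (‖u s‖ + ‖v s‖)) ^ 2
      ≤ (∑ s ∈ Acc, ‖u s - v s‖ ^ 2) * (∑ s ∈ Acc, (‖u s‖ + ‖v s‖) ^ 2) :=
    Finset.sum_mul_sq_le_sq_mul_sq _ _ _
  have h3 : ∑ s ∈ Acc, ‖u s - v s‖ ^ 2 ≤ ∑ b, ‖u b - v b‖ ^ 2 :=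
    Finset.sum_le_sum_of_subset_of_nonneg (Finset.subset_univ _) (fun b _ _ => by positivity)
  have h4 : ∑ s ∈ Acc, (‖u s‖ + ‖v s‖) ^ 2 ≤ 4 := by
    calc ∑ s ∈ Acc, (‖u s‖ + ‖v s‖) ^ 2 ≤ ∑ b, (‖u b‖ + ‖v b‖) ^ 2 :=
          Finset.sum_le_sum_of_subset_of_nonneg (Finset.subset_univ _)
            (fun b _ _ => by positivity)
      _ ≤ ∑ b, (2 * ‖u b‖ ^ 2 + 2 * ‖v b‖ ^ 2) :=
          Finset.sum_le_sum (fun b _ => by nlinarith [sq_nonneg (‖u b‖ - ‖v b‖)])
      _ = 4 := by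
          rw [Finset.sum_add_distrib, ← Finset.mul_sum, ← Finset.mul_sum, hu, hv]
          norm_num
  have h5 : (∑ s ∈ Acc, ‖u s‖ ^ 2 - ∑ s ∈ Acc, ‖v s‖ ^ 2) ^ 2
      ≤ (∑ s ∈ Acc, ‖u s - v s‖ * (‖u s‖ + ‖v s‖)) ^ 2 := by
    rw [← sq_abs]
    exact pow_le_pow_left₀ (abs_nonneg _) h1 2
  have h6 : 0 ≤ ∑ s ∈ Acc, ‖u s - v s‖ ^ 2 := Finset.sum_nonneg (fun _ _ => by positivity)
  have h7 : 0 ≤ ∑ s ∈ Acc, (‖u s‖ + ‖v s‖) ^ 2 := Finset.sum_nonneg (fun _ _ => by positivity)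
  have h8 := quIp_sub u v hu hv
  calc _ ≤ (∑ s ∈ Acc, ‖u s - v s‖ ^ 2) * (∑ s ∈ Acc, (‖u s‖ + ‖v s‖) ^ 2) := h5.trans h2
    _ ≤ (∑ b, ‖u b - v b‖ ^ 2) * 4 := mul_le_mul h3 h4 h7 (h6.trans h3)
    _ = _ := by rw [h8]; ring

end quh

section quo

variable {N m : ℕ}

/-- The phase of the query. -/
private noncomputable def quPh (x : Fin N → Bool) (b : Option (Fin N) × Fin m) : ℂ :=
  Option.elim b.1 (1 : ℂ) (fun i => if x i then -1 else 1)

private lemma quPh_norm (x : Fin N → Bool) (b : Option (Fin N) × Fin m) : ‖quPh x b‖ = 1 := by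
  unfold quPh
  rcases hb : b.1 with _ | j
  · simp
  · by_cases h : x j <;> simp [h]

/-- Query weight of bit `i` in a vector. -/
private noncomputable def quW (u : Option (Fin N) × Fin m → ℂ) (i : Fin N) : ℝ :=
  ∑ w, ‖u (some i, w)‖ ^ 2

private lemma quW_nonneg (u : Option (Fin N) × Fin m → ℂ) (i : Fin N) : 0 ≤ quW u i :=
  Finset.sum_nonneg (fun _ _ => by positivity)

private lemma quW_sum (u : Option (Fin N) × Fin m → ℂ) :
    ∑ i, quW u i ≤ ∑ b, ‖u b‖ ^ 2 := by
  rw [Fintype.sum_prod_type, Fintype.sum_option]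
  have : 0 ≤ ∑ w, ‖u (none, w)‖ ^ 2 := Finset.sum_nonneg (fun _ _ => by positivity)
  unfold quW
  linarith

private lemma quIp_ph (x y : Fin N → Bool) (u v : Option (Fin N) × Fin m → ℂ) :
    quIp (fun b => quPh x b * u b) (fun b => quPh y b * v b) = quIp u v
      - 2 * ∑ i ∈ univ.filter (fun i => x i ≠ y i),
          ∑ w, star (u (some i, w)) * v (some i, w) := by
  unfold quIp
  rw [Fintype.sum_prod_type, Fintype.sum_option, Fintype.sum_prod_type, Fintype.sum_option]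
  have h0 : ∑ w : Fin m, star (quPh x (none, w) * u (none, w)) * (quPh y (none, w) * v (none, w))
      = ∑ w : Fin m, star (u (none, w)) * v (none, w) := by
    refine Finset.sum_congr rfl (fun w _ => ?_)
    simp [quPh]
  have h1 : ∀ i : Fin N,
      ∑ w : Fin m, star (quPh x (some i, w) * u (some i, w)) * (quPh y (some i, w) * v (some i, w))
      = ∑ w : Fin m, star (u (some i, w)) * v (some i, w)
        - 2 * (if x i ≠ y i then ∑ w : Fin m, star (u (some i, w)) * v (some i, w) else 0) := by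
    intro i
    by_cases h : x i = y i
    · rw [if_neg (by simpa using h), mul_zero, sub_zero]
      refine Finset.sum_congr rfl (fun w _ => ?_)
      have e : quPh x (some i, w) = quPh y (some i, w) := by simp [quPh, h]
      have e2 : star (quPh y (some i, w)) * quPh y (some i, w) = 1 := by
        have := Complex.conj_mul' (quPh y (some i, w))
        rw [quPh_norm] at this
        simpa using this
      rw [e, star_mul']
      linear_combination (star (u (some i, w)) * v (some i, w)) * e2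
    · rw [if_pos h, Finset.mul_sum, ← Finset.sum_sub_distrib]
      refine Finset.sum_congr rfl (fun w _ => ?_)
      have e2 : star (quPh x (some i, w)) * quPh y (some i, w) = -1 := by
        simp only [quPh, Option.elim_some]
        rcases hx : x i with _ | _ <;> rcases hy : y i with _ | _ <;> simp [hx, hy] at h ⊢
      rw [star_mul']
      linear_combination (star (u (some i, w)) * v (some i, w)) * e2
  rw [h0]
  simp only [h1]
  rw [Finset.sum_sub_distrib, ← Finset.mul_sum, ← Finset.sum_filter]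
  ring

private lemma quCS (u v : Option (Fin N) × Fin m → ℂ) (i : Fin N) :
    ‖∑ w, star (u (some i, w)) * v (some i, w)‖ ≤ Real.sqrt (quW u i) * Real.sqrt (quW v i) := by
  calc ‖∑ w, star (u (some i, w)) * v (some i, w)‖
      ≤ ∑ w, ‖star (u (some i, w)) * v (some i, w)‖ := norm_sum_le _ _
    _ = ∑ w, Real.sqrt (‖u (some i, w)‖ ^ 2) * Real.sqrt (‖v (some i, w)‖ ^ 2) := by
        refine Finset.sum_congr rfl (fun w _ => ?_)
        rw [norm_mul, norm_star, Real.sqrt_sq (norm_nonneg _), Real.sqrt_sq (norm_nonneg _)]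
    _ ≤ _ := Real.sum_sqrt_mul_sqrt_le _ (fun _ => by positivity) (fun _ => by positivity)

end quo

/-- **Theorem 4, quantum half.** Query weights `q x i = ∑_{t<T} ∑_{b, b.1 = some i} |ψ_t(x)_b|²`.
`ψ_0 = U_0 e_{s₀}`, `ψ_{t+1}(x) = U_{t+1} O_x ψ_t(x)`. For unit vectors
`(p x - p y)² ≤ 4 ‖ψ_T(x) - ψ_T(y)‖² = 8 (1 - Re⟨ψ_T(x),ψ_T(y)⟩)`, and
`⟨O_x ψ, O_y φ⟩ - ⟨ψ, φ⟩ = -2 ∑_{x_i ≠ y_i} ⟨Π_i ψ, Π_i φ⟩`, then Cauchy–Schwarz over `t`. -/
theorem quantum_data (N T m : ℕ)
    (U : Fin (T + 1) → Matrix.unitaryGroup (Option (Fin N) × Fin m) ℂ)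
    (s₀ : Option (Fin N) × Fin m) (Acc : Finset (Option (Fin N) × Fin m))
    (p : (Fin N → Bool) → ℝ)
    (hp : ∀ x : Fin N → Bool,
      p x = ∑ s ∈ Acc,
        ‖(((List.ofFn (fun k : Fin T =>
            (U k.succ).1 *
              Matrix.diagonal (fun q : Option (Fin N) × Fin m =>
                Option.elim q.1 (1 : ℂ) (fun i => if x i then -1 else 1)))).reverse.prod
            * (U 0).1) s s₀)‖ ^ 2) :
    ∃ q : (Fin N → Bool) → Fin N → ℝ, (∀ x i, 0 ≤ q x i) ∧ (∀ x, ∑ i, q x i ≤ T) ∧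
      (∀ x, 0 ≤ p x) ∧ (∀ x, p x ≤ 1) ∧
      ∀ x y, (p x - p y) ^ 2 / 16 ≤
        ∑ i ∈ univ.filter (fun i => x i ≠ y i), Real.sqrt (q x i * q y i) := by
  classical
  let V : ℕ → Matrix (Option (Fin N) × Fin m) (Option (Fin N) × Fin m) ℂ :=
    fun t => if h : t < T then (U ⟨t + 1, by omega⟩).1 else 1
  have hV : ∀ t, star (V t) * V t = 1 := by
    intro t
    by_cases h : t < T
    · simp only [V, h, dif_pos]
      exact Matrix.mem_unitaryGroup_iff'.mp (U ⟨t + 1, by omega⟩).2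
    · simp [V, h]
  let M : ℕ → (Fin N → Bool) → Matrix (Option (Fin N) × Fin m) (Option (Fin N) × Fin m) ℂ :=
    fun n x => (List.ofFn (fun k : Fin n => V k * Matrix.diagonal (quPh x))).reverse.prod
      * (U 0).1
  have hMs : ∀ n x, M (n + 1) x = (V n * Matrix.diagonal (quPh x)) * M n x := by
    intro n x
    simp only [M]
    rw [List.ofFn_succ_last, List.reverse_append, List.reverse_singleton, List.singleton_append,
      List.prod_cons]
    simp only [Fin.val_last, Fin.val_castSucc, mul_assoc]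
  let ψ : ℕ → (Fin N → Bool) → (Option (Fin N) × Fin m) → ℂ := fun n x b => M n x b s₀
  have hψs : ∀ n x, ψ (n + 1) x = V n *ᵥ (fun b => quPh x b * ψ n x b) := by
    intro n x
    funext b
    simp only [ψ]
    rw [hMs, Matrix.mul_assoc, Matrix.mul_apply]
    simp only [Matrix.mulVec, dotProduct]
    refine Finset.sum_congr rfl (fun c _ => ?_)
    rw [Matrix.diagonal_mul]
  have hpψ : ∀ x, p x = ∑ s ∈ Acc, ‖ψ T x s‖ ^ 2 := by
    intro x
    rw [hp x]
    have e : (fun k : Fin T => V k * Matrix.diagonal (quPh x)) = (fun k : Fin T =>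
            (U k.succ).1 *
              Matrix.diagonal (fun q : Option (Fin N) × Fin m =>
                Option.elim q.1 (1 : ℂ) (fun i => if x i then -1 else 1))) := by
      funext k
      simp only [V, k.2, dif_pos]
      rfl
    simp only [ψ, M]
    rw [e]
  -- unit vectors
  have h0 : ∀ x y, quIp (ψ 0 x) (ψ 0 y) = 1 := by
    intro x y
    have e : ∀ x, ψ 0 x = (U 0).1 *ᵥ Pi.single s₀ 1 := by
      intro x
      funext b
      simp [ψ, M]
    rw [e, e, quIp_unitary _ (Matrix.mem_unitaryGroup_iff'.mp (U 0).2)]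
    unfold quIp
    rw [Finset.sum_eq_single s₀]
    · simp
    · intro b _ hb
      simp [hb]
    · intro h
      exact absurd (Finset.mem_univ _) h
  have hstep : ∀ n x y, quIp (ψ (n + 1) x) (ψ (n + 1) y) = quIp (ψ n x) (ψ n y)
      - 2 * ∑ i ∈ univ.filter (fun i => x i ≠ y i),
          ∑ w, star (ψ n x (some i, w)) * ψ n y (some i, w) := by
    intro n x y
    rw [hψs, hψs, quIp_unitary _ (hV n), quIp_ph]
  have hunit : ∀ n x, ∑ b, ‖ψ n x b‖ ^ 2 = 1 := by
    intro n x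
    have h1 : quIp (ψ n x) (ψ n x) = 1 := by
      induction n with
      | zero => exact h0 x x
      | succ n ih =>
        rw [hstep, ih]
        simp
    rw [quIp_self] at h1
    exact_mod_cast h1
  refine ⟨fun x i => ∑ t ∈ range T, quW (ψ t x) i, fun x i => ?_, fun x => ?_, fun x => ?_,
    fun x => ?_, fun x y => ?_⟩
  · exact Finset.sum_nonneg (fun t _ => quW_nonneg _ _)
  · rw [Finset.sum_comm]
    calc ∑ t ∈ range T, ∑ i, quW (ψ t x) i ≤ ∑ t ∈ range T, (1 : ℝ) :=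
          Finset.sum_le_sum (fun t _ => (quW_sum _).trans (hunit t x).le)
      _ = T := by simp
  · rw [hpψ]
    exact Finset.sum_nonneg (fun _ _ => by positivity)
  · rw [hpψ, ← hunit T x]
    exact Finset.sum_le_sum_of_subset_of_nonneg (Finset.subset_univ _) (fun b _ _ => by positivity)
  · have h1 : ∀ n, ‖1 - quIp (ψ n x) (ψ n y)‖ ≤ 2 * ∑ t ∈ range n,
        ∑ i ∈ univ.filter (fun i => x i ≠ y i),
          Real.sqrt (quW (ψ t x) i) * Real.sqrt (quW (ψ t y) i) := by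
      intro n
      induction n with
      | zero => rw [h0]; simp
      | succ n ih =>
        rw [hstep, Finset.sum_range_succ, mul_add]
        have e : 1 - (quIp (ψ n x) (ψ n y) - 2 * ∑ i ∈ univ.filter (fun i => x i ≠ y i),
            ∑ w, star (ψ n x (some i, w)) * ψ n y (some i, w))
            = (1 - quIp (ψ n x) (ψ n y)) + 2 * ∑ i ∈ univ.filter (fun i => x i ≠ y i),
            ∑ w, star (ψ n x (some i, w)) * ψ n y (some i, w) := by ring
        rw [e]
        refine (norm_add_le _ _).trans (add_le_add ih ?_)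
        rw [norm_mul]
        simp only [Complex.norm_ofNat]
        refine mul_le_mul_of_nonneg_left ?_ (by norm_num)
        refine (norm_sum_le _ _).trans (Finset.sum_le_sum (fun i _ => ?_))
        exact quCS _ _ _
    have h2 : 1 - (quIp (ψ T x) (ψ T y)).re ≤ ‖1 - quIp (ψ T x) (ψ T y)‖ := by
      have := Complex.re_le_norm (1 - quIp (ψ T x) (ψ T y))
      simpa using this
    have h3 : ∑ t ∈ range T, ∑ i ∈ univ.filter (fun i => x i ≠ y i),
          Real.sqrt (quW (ψ t x) i) * Real.sqrt (quW (ψ t y) i)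
        ≤ ∑ i ∈ univ.filter (fun i => x i ≠ y i),
          Real.sqrt ((∑ t ∈ range T, quW (ψ t x) i) * ∑ t ∈ range T, quW (ψ t y) i) := by
      rw [Finset.sum_comm]
      refine Finset.sum_le_sum (fun i _ => ?_)
      rw [Real.sqrt_mul (Finset.sum_nonneg (fun t _ => quW_nonneg _ _))]
      exact Real.sum_sqrt_mul_sqrt_le _ (fun t => quW_nonneg _ _) (fun t => quW_nonneg _ _)
    have h4 := quAcc Acc (ψ T x) (ψ T y) (hunit T x) (hunit T y)
    have h5 := h1 T
    rw [hpψ x, hpψ y]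
    linarith

end Pool.Agent.H.MP_58d537_lc.R67
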