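import Pool.Agent.H.MP_58d537_lc.A20.Restrict

set_option autoImplicit false

namespace Pool.Agent.H.MP_58d537_lc.R67

open Finset A20

/-- Total expected weight on the free bits of the subcube. -/
noncomputable def tw {N : ℕ} (q : (Fin N → Bool) → Fin N → ℝ) (S : Finset (Fin N))
    (a : Fin N → Bool) : ℝ :=
  ∑ i ∈ univ.filter (fun i => i ∉ S), avg (fun x => q (ov S a x) i)

private lemma Tree_tw_nonneg {N : ℕ} (q : (Fin N → Bool) → Fin N → ℝ) (hq : ∀ x i, 0 ≤ q x i)
    (S : Finset (Fin N)) (a : Fin N → Bool) : 0 ≤ tw q S a := by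
  unfold tw
  exact Finset.sum_nonneg (fun i _ => avg_nonneg (fun x => hq _ _))

private lemma Tree_tw_split {N : ℕ} (q : (Fin N → Bool) → Fin N → ℝ)
    (S : Finset (Fin N)) (a : Fin N → Bool) {i : Fin N} (hi : i ∉ S) :
    tw q (insert i S) (Function.update a i true) + tw q (insert i S) (Function.update a i false)
      = 2 * (tw q S a - avg (fun x => q (ov S a x) i)) := by
  have hF : (univ.filter (fun j : Fin N => j ∉ insert i S))
      = (univ.filter (fun j : Fin N => j ∉ S)).erase i := by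
    ext j
    simp only [Finset.mem_filter, Finset.mem_univ, true_and, Finset.mem_erase,
      Finset.mem_insert, not_or]
  have hiF : i ∈ univ.filter (fun j : Fin N => j ∉ S) := by
    simp [hi]
  unfold tw
  rw [hF, ← Finset.sum_add_distrib, ← Finset.add_sum_erase _ _ hiF, add_sub_cancel_left,
    Finset.mul_sum]
  refine Finset.sum_congr rfl (fun j _ => ?_)
  exact avg_split S a hi (fun x => q x j)

private lemma Tree_var {N : ℕ} (p : (Fin N → Bool) → ℝ) (c : ℝ)
    (S : Finset (Fin N)) (a : Fin N → Bool) :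
    avg (fun x => (p (ov S a x) - c) ^ 2)
      = (avg (fun x => p (ov S a x) ^ 2) - avg (fun x => p (ov S a x)) ^ 2)
        + (avg (fun x => p (ov S a x)) - c) ^ 2 := by
  have : ∀ x, (p (ov S a x) - c) ^ 2
      = (p (ov S a x) ^ 2 + (-(2 * c)) * p (ov S a x)) + c ^ 2 := fun x => by ring
  simp only [this]
  rw [avg_add, avg_add, avg_const_mul, avg_const]
  ring

/-- The potential argument (compare `A20.potential`, same proof, `avg_split`). -/
theorem potential {N : ℕ} (p : (Fin N → Bool) → ℝ) (q : (Fin N → Bool) → Fin N → ℝ)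
    (hq : ∀ x i, 0 ≤ q x i) (c κ τ ε : ℝ) (hκ : 0 ≤ κ) (hτ : 0 ≤ τ)
    (hlight : ∀ (S : Finset (Fin N)) (a : Fin N → Bool),
      (∀ i, i ∉ S → avg (fun x => q (ov S a x) i) ≤ τ) →
      avg (fun x => p (ov S a x) ^ 2) - avg (fun x => p (ov S a x)) ^ 2 ≤ ε) (n : ℕ) :
    ∀ (S : Finset (Fin N)) (a : Fin N → Bool), N - S.card ≤ n →
      ∃ (S' : Finset (Fin N)) (a' : Fin N → Bool),
        avg (fun x => (p (ov S a x) - c) ^ 2) - ε - κ * tw q S a ≤
          (avg (fun x => p (ov S' a' x)) - c) ^ 2 - κ * τ * ((S'.card : ℝ) - S.card) := by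
  induction n with
  | zero =>
    intro S a hS
    refine ⟨S, a, ?_⟩
    have hcard : S.card = N := by
      have := S.card_le_univ
      rw [Fintype.card_fin] at this
      omega
    have hSu : S = Finset.univ := by
      rw [← Finset.card_eq_iff_eq_univ, hcard, Fintype.card_fin]
    have hl := hlight S a (fun i hi => absurd (hSu ▸ Finset.mem_univ i) hi)
    have htw := Tree_tw_nonneg q hq S a
    rw [Tree_var p c S a]
    nlinarith [mul_nonneg hκ htw]
  | succ n ih =>
    intro S a hS
    by_cases hl : ∀ i, i ∉ S → avg (fun x => q (ov S a x) i) ≤ τ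
    · refine ⟨S, a, ?_⟩
      have hl := hlight S a hl
      have htw := Tree_tw_nonneg q hq S a
      rw [Tree_var p c S a]
      nlinarith [mul_nonneg hκ htw]
    · push Not at hl
      obtain ⟨i, hiS, hi⟩ := hl
      have hcard : (insert i S).card = S.card + 1 := Finset.card_insert_of_notMem hiS
      have hn : N - (insert i S).card ≤ n := by rw [hcard]; omega
      obtain ⟨S1, a1, h1⟩ := ih (insert i S) (Function.update a i true) hn
      obtain ⟨S2, a2, h2⟩ := ih (insert i S) (Function.update a i false) hn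
      have hsp := avg_split S a hiS (fun x => (p x - c) ^ 2)
      have htw := Tree_tw_split q S a hiS
      rw [hcard] at h1 h2
      push_cast at h1 h2
      have hkt : κ * τ ≤ κ * avg (fun x => q (ov S a x) i) :=
        mul_le_mul_of_nonneg_left hi.le hκ
      have htw' : κ * tw q (insert i S) (Function.update a i true)
          + κ * tw q (insert i S) (Function.update a i false)
          = 2 * (κ * tw q S a - κ * avg (fun x => q (ov S a x) i)) := by
        rw [← mul_add, htw]; ring
      rcases le_total (avg (fun x => (p (ov S a x) - c) ^ 2) - ε - κ * tw q S a)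
        ((avg (fun x => p (ov S1 a1 x)) - c) ^ 2 - κ * τ * ((S1.card : ℝ) - S.card)) with h | h
      · exact ⟨S1, a1, h⟩
      · refine ⟨S2, a2, ?_⟩
        nlinarith [h1, h2, hsp, htw', hkt, h]

/-- Bit fixing from a light-variance statement for all subcubes. -/
theorem bit_fixing {N : ℕ} (p : (Fin N → Bool) → ℝ) (q : (Fin N → Bool) → Fin N → ℝ)
    (T : ℝ) (hT : 1 ≤ T) (hp0 : ∀ x, 0 ≤ p x) (hp1 : ∀ x, p x ≤ 1)
    (hq : ∀ x i, 0 ≤ q x i) (hqT : ∀ x, ∑ i, q x i ≤ T) (Var τ : ℝ) (hτ : 0 < τ)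
    (hVar : Var = avg (fun x => (p x - avg p) ^ 2)) (hpos : 0 < Var)
    (hlight : ∀ (S : Finset (Fin N)) (a : Fin N → Bool),
      (∀ i, i ∉ S → avg (fun x => q (ov S a x) i) ≤ τ) →
      avg (fun x => p (ov S a x) ^ 2) - avg (fun x => p (ov S a x)) ^ 2 ≤ Var / 4) :
    ∃ (S : Finset (Fin N)) (a : Fin N → Bool),
      (S.card : ℝ) ≤ 4 * T / (Var * τ) ∧
      Var / 2 ≤ (avg (fun x => p (ov S a x)) - avg p) ^ 2 := by
  have hT0 : 0 < T := by linarith
  have havg01 : ∀ g : (Fin N → Bool) → (Fin N → Bool), 0 ≤ avg (fun x => p (g x)) ∧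
      avg (fun x => p (g x)) ≤ 1 := by
    intro g
    refine ⟨avg_nonneg (fun x => hp0 _), ?_⟩
    calc avg (fun x => p (g x)) ≤ avg (fun _ : Fin N → Bool => (1 : ℝ)) := avg_mono (fun x => hp1 _)
      _ = 1 := avg_const _
  have hE01 : 0 ≤ avg p ∧ avg p ≤ 1 := havg01 id
  set κ : ℝ := Var / (4 * T) with hκ
  have hκ0 : 0 < κ := by positivity
  obtain ⟨S, a, hSa⟩ := potential p q hq (avg p) κ τ (Var / 4) hκ0.le hτ.le hlight N ∅
    (fun _ => false) (by omega)
  have hov : ∀ x : Fin N → Bool, ov ∅ (fun _ => false) x = x := by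
    intro x; funext i; simp [ov]
  simp only [hov, Finset.card_empty, Nat.cast_zero, sub_zero] at hSa
  rw [← hVar] at hSa
  have htw : tw q ∅ (fun _ => false) ≤ T := by
    have h0 : (univ.filter (fun i : Fin N => i ∉ (∅ : Finset (Fin N)))) = univ := by
      ext i
      simp
    unfold tw
    rw [h0, ← avg_sum]
    calc avg (fun x => ∑ i, q (ov ∅ (fun _ => false) x) i)
        ≤ avg (fun _ : Fin N → Bool => T) := avg_mono (fun x => hqT _)
      _ = T := avg_const _
  have hκtw : κ * tw q ∅ (fun _ => false) ≤ Var / 4 := by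
    calc κ * tw q ∅ (fun _ => false) ≤ κ * T := mul_le_mul_of_nonneg_left htw hκ0.le
      _ = Var / 4 := by rw [hκ]; field_simp
  have hκτ : 0 < κ * τ := by positivity
  have hScard : (0 : ℝ) ≤ S.card := Nat.cast_nonneg _
  have hdev : Var / 2 + κ * τ * S.card ≤ (avg (fun x => p (ov S a x)) - avg p) ^ 2 := by
    linarith
  refine ⟨S, a, ?_, ?_⟩
  · have h1 : (avg (fun x => p (ov S a x)) - avg p) ^ 2 ≤ 1 := by
      have h2 := havg01 (ov S a)
      have h3 : |avg (fun x => p (ov S a x)) - avg p| ≤ 1 := by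
        rw [abs_le]; constructor <;> linarith [hE01.1, hE01.2, h2.1, h2.2]
      rw [← sq_abs]
      nlinarith [abs_nonneg (avg (fun x => p (ov S a x)) - avg p)]
    have h2 : κ * τ * S.card ≤ 1 := by linarith
    have h3 : (S.card : ℝ) ≤ 1 / (κ * τ) := by
      rw [le_div_iff₀ hκτ]; linarith
    refine h3.trans (le_of_eq ?_)
    rw [hκ]
    field_simp
  · have : 0 ≤ κ * τ * S.card := by positivity
    linarith

end Pool.Agent.H.MP_58d537_lc.R67
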