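import Pool.Agent.H.MP_58d537_lc.R67.Lit
import Pool.Agent.H.MP_58d537_lc.R67.Tree
import Pool.Agent.H.MP_58d537_lc.R67.Qu

set_option autoImplicit false

namespace Pool.Agent.H.MP_58d537_lc.R67

open Finset A20

/-- Restricting to a subcube keeps the hypotheses. -/
theorem light_var_sub {N : ℕ} (p : (Fin N → Bool) → ℝ) (q : (Fin N → Bool) → Fin N → ℝ)
    (T : ℝ) (hT : 1 ≤ T) (hp0 : ∀ x, 0 ≤ p x) (hp1 : ∀ x, p x ≤ 1)
    (hq : ∀ x i, 0 ≤ q x i) (hqT : ∀ x, ∑ i, q x i ≤ T)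
    (hadv : ∀ x y, (p x - p y) ^ 2 / 16 ≤
      ∑ i ∈ univ.filter (fun i => x i ≠ y i), Real.sqrt (q x i * q y i))
    (v : ℝ) (hv : 0 < v) (hv1 : v ≤ 1) (S : Finset (Fin N)) (a : Fin N → Bool)
    (hlight : ∀ i, i ∉ S → avg (fun x => q (ov S a x) i) ≤ v ^ 24 / (2 ^ 93 * T ^ 7)) :
    avg (fun x => p (ov S a x) ^ 2) - avg (fun x => p (ov S a x)) ^ 2 ≤ v := by
  have hτ : (0 : ℝ) ≤ v ^ 24 / (2 ^ 93 * T ^ 7) := by positivity
  refine light_var N (fun x => p (ov S a x)) (fun x i => if i ∈ S then 0 else q (ov S a x) i)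
    T hT (fun x => hp0 _) (fun x => hp1 _) ?_ ?_ ?_ v hv hv1 ?_
  · intro x i
    by_cases h : i ∈ S
    · simp [h]
    · simp only [h, if_false]; exact hq _ _
  · intro x
    refine le_trans (Finset.sum_le_sum (fun i _ => ?_)) (hqT (ov S a x))
    by_cases h : i ∈ S
    · simp only [h, if_true]; exact hq _ _
    · simp [h]
  · intro x y
    refine (hadv (ov S a x) (ov S a y)).trans (le_of_eq ?_)
    refine Finset.sum_congr_of_eq_on_inter ?_ ?_ ?_
    · intro i hi hi2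
      exfalso
      apply hi2
      simp only [Finset.mem_filter, Finset.mem_univ, true_and] at hi ⊢
      by_cases h : i ∈ S
      · simp [ov, h] at hi
      · simpa [ov, h] using hi
    · intro i hi hi2
      have hS : i ∈ S := by
        by_contra h
        apply hi2
        simp only [Finset.mem_filter, Finset.mem_univ, true_and] at hi ⊢
        simpa [ov, h] using hi
      simp [hS]
    · intro i hi _
      have hS : i ∉ S := by
        intro h
        simp only [Finset.mem_filter, Finset.mem_univ, true_and] at hi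
        simp [ov, h] at hi
      simp [hS]
  · intro i
    by_cases h : i ∈ S
    · simp only [h, if_true]
      rw [avg_const]
      exact hτ
    · simp only [h, if_false]
      exact hlight i h

/-- Abstract Aaronson–Ambainis statement. -/
theorem abstract_AA {N : ℕ} (p : (Fin N → Bool) → ℝ) (q : (Fin N → Bool) → Fin N → ℝ)
    (T : ℝ) (hT : 1 ≤ T) (hp0 : ∀ x, 0 ≤ p x) (hp1 : ∀ x, p x ≤ 1)
    (hq : ∀ x i, 0 ≤ q x i) (hqT : ∀ x, ∑ i, q x i ≤ T)
    (hadv : ∀ x y, (p x - p y) ^ 2 / 16 ≤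
      ∑ i ∈ univ.filter (fun i => x i ≠ y i), Real.sqrt (q x i * q y i))
    (Var : ℝ) (hVar : Var = avg (fun x => (p x - avg p) ^ 2)) (hpos : 0 < Var) (hV1 : Var ≤ 1) :
    ∃ (S : Finset (Fin N)) (a : Fin N → Bool),
      (S.card : ℝ) ≤ 2 ^ 143 * (T / Var) ^ 25 ∧
      Var / 2 ≤ (avg (fun x => p (ov S a x)) - avg p) ^ 2 := by
  set v : ℝ := Var / 4 with hv
  have hv0 : 0 < v := by positivity
  have hv1 : v ≤ 1 := by linarith
  obtain ⟨S, a, hS, hd⟩ := bit_fixing p q T hT hp0 hp1 hq hqT Var (v ^ 24 / (2 ^ 93 * T ^ 7))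
    (by positivity) hVar hpos
    (fun S a hl => light_var_sub p q T hT hp0 hp1 hq hqT hadv v hv0 hv1 S a hl)
  refine ⟨S, a, hS.trans ?_, hd⟩
  have hT0 : 0 < T := by linarith
  have e : 4 * T / (Var * (v ^ 24 / (2 ^ 93 * T ^ 7))) = 2 ^ 143 * (T ^ 8 / Var ^ 25) := by
    rw [hv]; field_simp; norm_num
  rw [e, div_pow]
  have h : T ^ 8 ≤ T ^ 25 := pow_le_pow_right₀ hT (by norm_num)
  gcongr

end Pool.Agent.H.MP_58d537_lc.R67
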