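import Pool.Agent.H.MP_58d537_lc.R67.But
import Pool.Agent.H.MP_58d537_lc.h48.Conflict

set_option autoImplicit false

namespace Pool.Agent.H.MP_58d537_lc.R67

open Finset

theorem Blk_bf_all (n : ℕ) : Pool.MP_58d537_lc.H48.BF n := by
  intro m U S h
  have h1 := butterfly n m U S (by
    intro z u v hu hv h1 h2 h3 h4
    refine h u hu v hv z ?_ ?_ ?_ ?_
    · intro k hk hkS
      exact hk (h1 k hkS).symm
    · simpa only [ne_comm] using h2
    · intro k hk
      by_contra hkS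
      exact h3 k hkS hk.symm
    · simpa only [eq_comm] using h4)
  exact h1

/-- **Theorem 2.** Bits grouped in `n` blocks by `blk`, block weights `a`, `b` with the conflict
property on `X × Y`. Proof in h67_58d537_PROOF.md (Theorem 2): `c = 1/(4m)`,
`m_k = min (a x k) (b y k)`, good pairs `∑ m_k 1[m_k > c] ≤ 1/4`; bad pairs by Markov and
`m_k 1[m_k > c] ≤ m_k^2/c ≤ a x k * b y k / c`; for good pairs apply `butterfly` to
`U(x,y) = {u : (x^u, x^ū) ∈ X × Y good}`, `S u = {k : b (x^ū) k ≤ a (x^u) k}`,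
`(x^u)_i = if u (blk i) then y i else x i`; for fixed `u` the map `(x,y) ↦ (x^u, x^ū)` is an
involution (or bijection) of the pairs. -/
theorem block_ineq (N n m : ℕ) (hm : 1 ≤ m) (blk : Fin N → Fin n)
    (X Y : Finset (Fin N → Bool)) (a b : (Fin N → Bool) → Fin n → ℝ)
    (ha : ∀ x k, 0 ≤ a x k) (hb : ∀ y k, 0 ≤ b y k)
    (hconf : ∀ x ∈ X, ∀ y ∈ Y,
      1 ≤ ∑ k ∈ univ.filter (fun k => ∃ i, blk i = k ∧ x i ≠ y i), min (a x k) (b y k)) :
    ((X.card : ℝ) / 2 ^ N) * ((Y.card : ℝ) / 2 ^ N) ≤ Real.sqrt n / (2 * m)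
      + 16 * m * ∑ k, ((∑ x ∈ X, a x k) / 2 ^ N) * ((∑ y ∈ Y, b y k) / 2 ^ N) := by
  classical
  have h := Pool.MP_58d537_lc.H48.conflict_block (Blk_bf_all n) blk X Y
    (fun k x => a x k) (fun k x => b x k) (fun k x => ha x k) (fun k x => hb x k)
    (by
      intro x hx y hy
      refine (hconf x hx y hy).trans (le_of_eq ?_)
      rw [Finset.sum_filter]) m hm
  have h42 : (4 : ℝ) ^ N = 2 ^ N * 2 ^ N := by rw [← mul_pow]; norm_num
  have h2N : (0 : ℝ) < 2 ^ N := by positivity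
  have h3 : ∑ k, ((∑ x ∈ X, a x k) / 2 ^ N) * ((∑ y ∈ Y, b y k) / 2 ^ N)
      = (∑ k, (∑ x ∈ X, a x k) * (∑ y ∈ Y, b y k)) / (2 ^ N * 2 ^ N) := by
    rw [Finset.sum_div]
    apply Finset.sum_congr rfl
    intro k _
    rw [div_mul_div_comm]
  rw [h3, div_mul_div_comm, div_le_iff₀ (by positivity)]
  refine h.trans (le_of_eq ?_)
  rw [h42]
  field_simp

end Pool.Agent.H.MP_58d537_lc.R67
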