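import Pool.Agent.H.MP_58d537_lc.h41.Butterfly

set_option autoImplicit false

namespace Pool.Agent.H.MP_58d537_lc.R67

open Polynomial Finset

/-- the sign of a coordinate -/
def sg {n : ℕ} (s : Fin n → Bool) (k : Fin n) : ℤ := if s k = true then 1 else -1

theorem two_wt_sub {n : ℕ} (s : Fin n → Bool) :
    (2 * Pool.Agent.BF.wt s : ℤ) - Fintype.card (Fin n) = ∑ k, sg s k := by
  unfold sg Pool.Agent.BF.wt
  rw [Finset.sum_ite, Finset.sum_const, Finset.sum_const]
  have h1 := Finset.card_filter_add_card_filter_not (s := (univ : Finset (Fin n)))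
    (fun k => s k = true)
  rw [Finset.card_univ] at h1
  have h2 : (Fintype.card (Fin n) : ℤ) = (univ.filter (fun k => s k = true)).card
      + (univ.filter (fun k => ¬ s k = true)).card := by
    rw [← h1]; push_cast; rfl
  rw [h2]
  simp only [nsmul_eq_mul, mul_one, mul_neg]
  ring

theorem sum_sg_mul {n : ℕ} (k l : Fin n) :
    ∑ s : Fin n → Bool, sg s k * sg s l = if k = l then 2 ^ n else 0 := by
  split_ifs with h
  · subst h
    have h1 : ∀ s : Fin n → Bool, sg s k * sg s k = 1 := by
      intro s; unfold sg; split_ifs <;> norm_num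
    rw [Finset.sum_congr rfl fun s _ => h1 s]
    simp
  · refine Finset.sum_involution (fun s _ => Function.update s k (!s k)) ?_ ?_ ?_ ?_
    · intro s _
      have hl : Function.update s k (!s k) l = s l := Function.update_of_ne (Ne.symm h) _ _
      have hk : Function.update s k (!s k) k = !s k := Function.update_self _ _ _
      unfold sg
      rw [hl, hk]
      cases s k <;> cases s l <;> norm_num
    · intro s _ _ heq
      have := congrFun heq k
      rw [Function.update_self] at this
      cases hs : s k <;> simp [hs] at this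
    · intro s _; exact Finset.mem_univ _
    · intro s _
      funext j
      by_cases hj : j = k
      · subst hj; simp
      · simp [Function.update_of_ne hj]

theorem sum_sq (n : ℕ) :
    ∑ s : Fin n → Bool, ((2 * Pool.Agent.BF.wt s : ℤ) - Fintype.card (Fin n)) ^ 2 = n * 2 ^ n := by
  have h1 : ∀ s : Fin n → Bool, ((2 * Pool.Agent.BF.wt s : ℤ) - Fintype.card (Fin n)) ^ 2
      = ∑ k, ∑ l, sg s k * sg s l := by
    intro s
    rw [two_wt_sub, sq, Finset.sum_mul_sum]
  rw [Finset.sum_congr rfl fun s _ => h1 s, Finset.sum_comm]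
  have h2 : ∀ k : Fin n, ∑ s : Fin n → Bool, ∑ l, sg s k * sg s l = 2 ^ n := by
    intro k
    rw [Finset.sum_comm]
    simp only [sum_sg_mul]
    simp
  rw [Finset.sum_congr rfl fun k _ => h2 k]
  simp

theorem dev_le (n : ℕ) :
    ((Pool.Agent.BF.dev (Fin n) : ℤ) : ℝ) ≤ Real.sqrt n * (2 : ℝ) ^ n := by
  have hcs := sq_sum_le_card_mul_sum_sq (s := (univ : Finset (Fin n → Bool)))
    (f := fun s => |((2 * Pool.Agent.BF.wt s : ℤ) - Fintype.card (Fin n) : ℤ)|)
  simp only [sq_abs] at hcs
  rw [sum_sq] at hcs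
  have hcard : (#(univ : Finset (Fin n → Bool)) : ℤ) = 2 ^ n := by
    rw [Finset.card_univ]; simp
  rw [hcard] at hcs
  have hcs1 : (Pool.Agent.BF.dev (Fin n)) ^ 2 ≤ (2 : ℤ) ^ n * ((n : ℤ) * 2 ^ n) := hcs
  have hcs2 : ((Pool.Agent.BF.dev (Fin n) : ℤ) : ℝ) ^ 2 ≤ 2 ^ n * (n * 2 ^ n) := by
    have := (Int.cast_le (R := ℝ)).mpr hcs1
    push_cast at this
    exact this
  refine Real.le_sqrt_of_sq_le hcs2 |>.trans (le_of_eq ?_)
  rw [show (2 : ℝ) ^ n * (n * 2 ^ n) = n * (2 ^ n) ^ 2 by ring, Real.sqrt_mul (Nat.cast_nonneg n),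
    Real.sqrt_sq (by positivity)]

/-- **The two-scale butterfly theorem** (disjoint case). `U` a set of points of the `n`-cube with
arbitrary labels `S u`. If no point `z` is both
* at distance `< m` from some `u ∈ U` and equal to `u` on `S u`, and
* at distance `< m` from some antipode `ū'`, `u' ∈ U`, and equal to `ū'` outside `S u'`,
then `m |U| ≤ √n 2^n / 2`. -/
theorem butterfly (n m : ℕ) (U : Finset (Fin n → Bool)) (S : (Fin n → Bool) → Finset (Fin n))
    (hdisj : ∀ z u u' : Fin n → Bool, u ∈ U → u' ∈ U →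
      (∀ k ∈ S u, z k = u k) → (univ.filter (fun k => z k ≠ u k)).card < m →
      (∀ k, k ∉ S u' → z k ≠ u' k) → (univ.filter (fun k => z k = u' k)).card < m → False) :
    (m : ℝ) * U.card ≤ Real.sqrt n * (2 : ℝ) ^ n / 2 := by
  have h := Pool.Agent.BF.butterfly U S m ∅ (by
    intro z
    constructor
    · intro hz; simp at hz
    · rintro ⟨⟨u, hu, h1, h2⟩, ⟨v, hv, h3, h4⟩⟩
      exfalso
      refine hdisj z u v hu hv ?_ h2 ?_ h4
      · intro k hk
        by_contra hne
        exact h1 k hne hk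
      · intro k hk heq
        exact hk (h3 k heq))
  have h2 : ((2 * (m * U.card) : ℤ) : ℝ) ≤ ((2 * (m * (∅ : Finset (Fin n → Bool)).card)
      + Pool.Agent.BF.dev (Fin n) : ℤ) : ℝ) := by exact_mod_cast h
  push_cast at h2
  simp only [Finset.card_empty, Nat.cast_zero, mul_zero, zero_add] at h2
  have h3 := dev_le n
  linarith

end Pool.Agent.H.MP_58d537_lc.R67
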