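import Pool.Agent.H.MP_58d537_lc.R67.DetDefs

set_option autoImplicit false

namespace Pool.Agent.H.MP_58d537_lc.R67

open Polynomial Finset

/-- `G = 1` modulo `X`, so `X` does not divide `det G` (evaluate at `0`: `Polynomial.eval_det` or
`RingHom.map_det (Polynomial.evalRingHom 0)`, the matrix becomes `1`). -/
theorem Gm_det (n : ℕ) (S : (Fin n → Bool) → Finset (Fin n)) :
    ¬ (X : ℚ[X]) ∣ (Gm n S).det := by
  intro h
  have h1 : Polynomial.eval 0 (Gm n S).det = 0 := by
    obtain ⟨r, hr⟩ := h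
    rw [hr, Polynomial.eval_mul, Polynomial.eval_X, zero_mul]
  have h2 : (Polynomial.evalRingHom (0 : ℚ)).mapMatrix (Gm n S) = 1 := by
    ext u w
    rw [RingHom.mapMatrix_apply, Matrix.map_apply, Gm, map_prod]
    by_cases huw : u = w
    · subst huw
      rw [Matrix.one_apply_eq]
      apply Finset.prod_eq_one
      intro k _
      simp
    · rw [Matrix.one_apply_ne huw]
      obtain ⟨k, hk⟩ := Function.ne_iff.1 huw
      apply Finset.prod_eq_zero (Finset.mem_univ k)
      rw [if_neg hk]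
      split_ifs <;> simp
  have h3 : Polynomial.eval 0 (Gm n S).det = 1 := by
    have h4 := RingHom.map_det (Polynomial.evalRingHom (0 : ℚ)) (Gm n S)
    rw [h2, Matrix.det_one] at h4
    simpa using h4
  rw [h1] at h3
  exact zero_ne_one h3

/-- Red entries. -/
theorem Gm_red_zero (n : ℕ) (S : (Fin n → Bool) → Finset (Fin n)) (u z : Fin n → Bool) (k : Fin n)
    (hk : k ∈ S u) (hz : z k ≠ u k) : Gm n S u z = 0 := by
  rw [Gm]
  apply Finset.prod_eq_zero (Finset.mem_univ k)
  rw [if_neg (Ne.symm hz), if_pos hk]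

theorem Gm_red_dvd (n : ℕ) (S : (Fin n → Bool) → Finset (Fin n)) (u z : Fin n → Bool) :
    (X : ℚ[X]) ^ (univ.filter (fun k => z k ≠ u k)).card ∣ Gm n S u z := by
  rw [← Finset.prod_const, Finset.prod_filter, Gm]
  apply Finset.prod_dvd_prod_of_dvd
  intro k _
  by_cases h : z k = u k
  · simp [h]
  · rw [if_pos h, if_neg (Ne.symm h)]
    split_ifs
    · exact dvd_zero _
    · exact dvd_rfl

/-- Blue entries: `∑_w G(u,w) M(z,w) = ∏_k (k ∈ S u: -X if z_k = u_k, 1 otherwise;
k ∉ S u: 0 if z_k = u_k, 1 - X^2 otherwise)`. -/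
theorem Gm_blue (n : ℕ) (S : (Fin n → Bool) → Finset (Fin n)) (u z : Fin n → Bool) :
    ∑ w, Gm n S u w * Mx n z w =
      ∏ k, (if k ∈ S u then (if z k = u k then -X else 1)
        else (if z k = u k then 0 else 1 - X ^ 2)) := by
  have h1 : ∑ w, Gm n S u w * Mx n z w = ∑ w : Fin n → Bool, ∏ k,
      ((if u k = w k then 1 else if k ∈ S u then 0 else X) *
        (if z k = w k then -X else 1) : ℚ[X]) := by
    apply Finset.sum_congr rfl
    intro w _
    rw [Gm, Mx, ← Finset.prod_mul_distrib]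
  have h2 := Finset.prod_univ_sum (fun _ : Fin n => (Finset.univ : Finset Bool))
    (fun (k : Fin n) (b : Bool) => ((if u k = b then 1 else if k ∈ S u then 0 else X) *
        (if z k = b then -X else 1) : ℚ[X]))
  rw [Fintype.piFinset_univ] at h2
  rw [h1, ← h2]
  apply Finset.prod_congr rfl
  intro k _
  rw [Fintype.sum_bool]
  by_cases hS : k ∈ S u
  · simp only [hS, if_true]
    cases z k <;> cases u k <;> simp
  · simp only [hS, if_false]
    cases z k <;> cases u k <;> simp <;> ring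

theorem Gm_blue_zero (n : ℕ) (S : (Fin n → Bool) → Finset (Fin n)) (u z : Fin n → Bool) (k : Fin n)
    (hk : k ∉ S u) (hz : z k = u k) : ∑ w, Gm n S u w * Mx n z w = 0 := by
  rw [Gm_blue]
  exact Finset.prod_eq_zero (Finset.mem_univ k) (by simp [hk, hz])

theorem Gm_blue_dvd (n : ℕ) (S : (Fin n → Bool) → Finset (Fin n)) (u z : Fin n → Bool) :
    (X : ℚ[X]) ^ (univ.filter (fun k => z k = u k)).card ∣ ∑ w, Gm n S u w * Mx n z w := by
  rw [Gm_blue, ← Finset.prod_const, Finset.prod_filter]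
  apply Finset.prod_dvd_prod_of_dvd
  intro k _
  by_cases h : z k = u k
  · rw [if_pos h, if_pos h, if_pos h]
    split_ifs
    · exact (dvd_neg).2 dvd_rfl
    · exact dvd_zero _
  · rw [if_neg h]
    exact one_dvd _

end Pool.Agent.H.MP_58d537_lc.R67
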