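import Mathlib

set_option autoImplicit false

namespace Pool.Agent.H.MP_58d537_lc.R67

open Finset

private theorem RndA_aux (N n : ℕ) (hn : 1 ≤ n) (α β : Fin N → ℝ) (hα : ∀ i, 0 ≤ α i)
    (hβ : ∀ i, 0 ≤ β i) (t : Finset (Fin N)) :
    ∃ blk : Fin N → Fin n,
      ∑ k, (∑ i ∈ t, if blk i = k then α i else 0) * (∑ i ∈ t, if blk i = k then β i else 0) ≤
        ∑ i ∈ t, α i * β i + (∑ i ∈ t, α i) * (∑ i ∈ t, β i) / n := by
  have hn0 : (0 : ℝ) < n := by exact_mod_cast hn
  induction t using Finset.induction_on with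
  | empty => exact ⟨fun _ => ⟨0, hn⟩, by simp⟩
  | insert i0 t h ih =>
    obtain ⟨blk, hb⟩ := ih
    set A : Fin n → ℝ := fun k => ∑ i ∈ t, if blk i = k then α i else 0 with hA
    set B : Fin n → ℝ := fun k => ∑ i ∈ t, if blk i = k then β i else 0 with hB
    have sA : ∑ k, A k = ∑ i ∈ t, α i := by
      rw [hA]
      simp only
      rw [sum_comm]
      exact sum_congr rfl fun i _ => by simp
    have sB : ∑ k, B k = ∑ i ∈ t, β i := by
      rw [hB]
      simp only
      rw [sum_comm]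
      exact sum_congr rfl fun i _ => by simp
    have hex : ∃ k0 ∈ (univ : Finset (Fin n)), α i0 * B k0 + β i0 * A k0 ≤
        (α i0 * (∑ i ∈ t, β i) + β i0 * (∑ i ∈ t, α i)) / n := by
      refine Finset.exists_le_of_sum_le ⟨⟨0, hn⟩, mem_univ _⟩ ?_
      rw [sum_add_distrib, ← mul_sum, ← mul_sum, sA, sB, sum_const, card_univ, Fintype.card_fin,
        nsmul_eq_mul]
      exact le_of_eq (by field_simp)
    obtain ⟨k0, _, hk0⟩ := hex
    refine ⟨Function.update blk i0 k0, ?_⟩
    have e1 : ∀ (γ : Fin N → ℝ) (k : Fin n), (∑ i ∈ insert i0 t,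
        if Function.update blk i0 k0 i = k then γ i else 0) =
        (if k0 = k then γ i0 else 0) + ∑ i ∈ t, if blk i = k then γ i else 0 := by
      intro γ k
      rw [sum_insert h, Function.update_self]
      congr 1
      refine sum_congr rfl fun i hi => ?_
      have hne : i ≠ i0 := by
        rintro rfl
        exact h hi
      rw [Function.update_of_ne hne]
    have e2 : ∑ k, (∑ i ∈ insert i0 t, if Function.update blk i0 k0 i = k then α i else 0) *
        (∑ i ∈ insert i0 t, if Function.update blk i0 k0 i = k then β i else 0) =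
        ∑ k, A k * B k + (α i0 * B k0 + β i0 * A k0) + α i0 * β i0 := by
      have e3 : ∀ k, (∑ i ∈ insert i0 t, if Function.update blk i0 k0 i = k then α i else 0) *
          (∑ i ∈ insert i0 t, if Function.update blk i0 k0 i = k then β i else 0) =
          A k * B k + (if k0 = k then α i0 * B k + β i0 * A k + α i0 * β i0 else 0) := by
        intro k
        rw [e1 α k, e1 β k]
        change ((if k0 = k then α i0 else 0) + A k) * ((if k0 = k then β i0 else 0) + B k) = _
        split_ifs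
        · ring
        · ring
      rw [sum_congr rfl fun k _ => e3 k, sum_add_distrib, sum_ite_eq]
      simp only [mem_univ, if_true]
      ring
    rw [e2, sum_insert h, sum_insert h, sum_insert h]
    have hp : 0 ≤ α i0 * β i0 / n := div_nonneg (mul_nonneg (hα _) (hβ _)) hn0.le
    have e4 : (α i0 + ∑ i ∈ t, α i) * (β i0 + ∑ i ∈ t, β i) / n =
        α i0 * β i0 / n + (α i0 * (∑ i ∈ t, β i) + β i0 * (∑ i ∈ t, α i)) / n +
          (∑ i ∈ t, α i) * (∑ i ∈ t, β i) / n := by
      ring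
    rw [e4]
    linarith

/-- Random blocks: some block map has `∑_k α_k β_k ≤ δ s + s²/n`. (Average over all
`blk : Fin N → Fin n`; `#{blk : blk i = blk j} = n^N / n` for `i ≠ j`. Or: induction on `N`.) -/
theorem exists_blk (N n : ℕ) (hn : 1 ≤ n) (α β : Fin N → ℝ) (hα : ∀ i, 0 ≤ α i)
    (hβ : ∀ i, 0 ≤ β i) (s δ : ℝ) (hs : ∑ i, α i ≤ s) (hs' : ∑ i, β i ≤ s)
    (hδ : ∀ i, α i ≤ δ) (hδ0 : 0 ≤ δ) :
    ∃ blk : Fin N → Fin n,
      ∑ k, (∑ i ∈ univ.filter (fun i => blk i = k), α i) *
        (∑ i ∈ univ.filter (fun i => blk i = k), β i) ≤ δ * s + s ^ 2 / n := by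
  have hn0 : (0 : ℝ) < n := by exact_mod_cast hn
  obtain ⟨blk, hb⟩ := RndA_aux N n hn α β hα hβ univ
  refine ⟨blk, ?_⟩
  simp only [sum_filter]
  refine hb.trans (add_le_add ?_ ?_)
  · calc ∑ i, α i * β i ≤ ∑ i, δ * β i :=
          sum_le_sum fun i _ => mul_le_mul_of_nonneg_right (hδ i) (hβ i)
      _ = δ * ∑ i, β i := (mul_sum _ _ _).symm
      _ ≤ δ * s := mul_le_mul_of_nonneg_left hs' hδ0
  · refine div_le_div_of_nonneg_right ?_ hn0.le
    rw [sq]
    have h0 : 0 ≤ ∑ i, β i := sum_nonneg fun i _ => hβ i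
    have h1 : 0 ≤ s := (sum_nonneg fun i _ => hα i).trans hs
    exact mul_le_mul hs hs' h0 h1

end Pool.Agent.H.MP_58d537_lc.R67
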