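import Pool.Agent.H.MP_58d537_lc.R67.Blk
import Pool.Agent.H.MP_58d537_lc.R67.RndA

set_option autoImplicit false

namespace Pool.Agent.H.MP_58d537_lc.R67

open Finset

/-- **Theorem 3.** Take the block map of `exists_blk`, block weights
`a x k = ∑_{blk i = k} a x i`; the conflict property is inherited since for a block `k` on which
`x, y` differ `min (∑ a) (∑ b) ≥ ∑_{i in k, x_i ≠ y_i} min (a_i) (b_i)`. -/
theorem bit_ineq (N n m : ℕ) (hm : 1 ≤ m) (hn : 1 ≤ n)
    (X Y : Finset (Fin N → Bool)) (a b : (Fin N → Bool) → Fin N → ℝ)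
    (ha : ∀ x i, 0 ≤ a x i) (hb : ∀ y i, 0 ≤ b y i) (s δ : ℝ)
    (hsa : ∑ i, (∑ x ∈ X, a x i) / 2 ^ N ≤ s) (hsb : ∑ i, (∑ y ∈ Y, b y i) / 2 ^ N ≤ s)
    (hδ : ∀ i, (∑ x ∈ X, a x i) / 2 ^ N ≤ δ) (hδ0 : 0 ≤ δ)
    (hconf : ∀ x ∈ X, ∀ y ∈ Y,
      1 ≤ ∑ i ∈ univ.filter (fun i => x i ≠ y i), min (a x i) (b y i)) :
    ((X.card : ℝ) / 2 ^ N) * ((Y.card : ℝ) / 2 ^ N) ≤ Real.sqrt n / (2 * m)
      + 16 * m * (δ * s + s ^ 2 / n) := by
  classical
  have h2N : (0 : ℝ) < 2 ^ N := by positivity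
  obtain ⟨blk, hblk⟩ := exists_blk N n hn (fun i => (∑ x ∈ X, a x i) / 2 ^ N)
    (fun i => (∑ y ∈ Y, b y i) / 2 ^ N)
    (fun i => div_nonneg (Finset.sum_nonneg (fun x _ => ha x i)) h2N.le)
    (fun i => div_nonneg (Finset.sum_nonneg (fun x _ => hb x i)) h2N.le)
    s δ hsa hsb hδ hδ0
  have h := block_ineq N n m hm blk X Y
    (fun x k => ∑ i ∈ univ.filter (fun i => blk i = k), a x i)
    (fun x k => ∑ i ∈ univ.filter (fun i => blk i = k), b x i)
    (fun x k => Finset.sum_nonneg (fun i _ => ha x i))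
    (fun x k => Finset.sum_nonneg (fun i _ => hb x i)) ?_
  · refine h.trans ?_
    have h2 : ∀ k : Fin n, ((∑ x ∈ X, ∑ i ∈ univ.filter (fun i => blk i = k), a x i) / 2 ^ N)
        * ((∑ y ∈ Y, ∑ i ∈ univ.filter (fun i => blk i = k), b y i) / 2 ^ N)
        = (∑ i ∈ univ.filter (fun i => blk i = k), (∑ x ∈ X, a x i) / 2 ^ N)
          * (∑ i ∈ univ.filter (fun i => blk i = k), (∑ y ∈ Y, b y i) / 2 ^ N) := by
      intro k
      rw [Finset.sum_comm, Finset.sum_comm (s := Y), Finset.sum_div, Finset.sum_div]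
    have h3 : (0 : ℝ) ≤ 16 * m := by positivity
    have h4 := mul_le_mul_of_nonneg_left hblk h3
    have h5 : ∑ k, ((∑ x ∈ X, ∑ i ∈ univ.filter (fun i => blk i = k), a x i) / 2 ^ N)
        * ((∑ y ∈ Y, ∑ i ∈ univ.filter (fun i => blk i = k), b y i) / 2 ^ N)
        = ∑ k, (∑ i ∈ univ.filter (fun i => blk i = k), (∑ x ∈ X, a x i) / 2 ^ N)
          * (∑ i ∈ univ.filter (fun i => blk i = k), (∑ y ∈ Y, b y i) / 2 ^ N) :=
      Finset.sum_congr rfl (fun k _ => h2 k)
    rw [h5]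
    linarith
  · intro x hx y hy
    refine (hconf x hx y hy).trans ?_
    rw [Finset.sum_filter, ← Finset.sum_fiberwise univ blk, Finset.sum_filter]
    apply Finset.sum_le_sum
    intro k _
    by_cases hex : ∃ i, blk i = k ∧ x i ≠ y i
    · rw [if_pos hex]
      apply le_min
      · apply Finset.sum_le_sum
        intro i _
        split_ifs
        · exact min_le_left _ _
        · exact ha x i
      · apply Finset.sum_le_sum
        intro i _
        split_ifs
        · exact min_le_right _ _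
        · exact hb y i
    · rw [if_neg hex]
      apply le_of_eq
      apply Finset.sum_eq_zero
      intro i hi
      rw [mem_filter] at hi
      rw [if_neg]
      intro hne
      exact hex ⟨i, hi.2, hne⟩

end Pool.Agent.H.MP_58d537_lc.R67
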